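import Mathlib

set_option autoImplicit false

namespace Pool.Agent.H575.Rotation

open Real

/-- closed form of a rotation recurrence -/
lemma closed_form (α b s : ℝ) (f : ℕ → ℝ) (h0 : f 0 = b)
    (h1 : f 1 = b * cos α - s * sin α)
    (hrec : ∀ n, f (n + 2) = 2 * cos α * f (n + 1) - f n) (n : ℕ) :
    f n = b * cos (n * α) - s * sin (n * α) := by
  induction n using Nat.twoStepInduction with
  | zero => simp [h0]
  | one => simp [h1]
  | more n ih1 ih2 =>
    rw [hrec, ih1, ih2]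
    have e1 : ((n + 1 : ℕ) : ℝ) * α = n * α + α := by push_cast; ring
    have e2 : ((n + 2 : ℕ) : ℝ) * α = n * α + 2 * α := by push_cast; ring
    rw [e1, e2, cos_add, sin_add, cos_add, sin_add, cos_two_mul, sin_two_mul]
    ring_nf

/-- positive multiples of an angle that is irrational modulo `2π` come close to any angle. -/
lemma exists_nat_cos_gt {α : ℝ} (hα : Irrational (α / (2 * π))) (φ : ℝ) {ε : ℝ} (hε : ε < 1) :
    ∃ n : ℕ, ε < cos (n * α + φ) := by
  have : Fact (0 < 2 * π) := ⟨by positivity⟩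
  have hd : DenseRange (fun z : ℤ => z • (α : AddCircle (2 * π))) :=
    AddCircle.denseRange_zsmul_coe_iff.2 hα
  have hd' : DenseRange (fun n : ℕ => n • (α : AddCircle (2 * π))) :=
    denseRange_zsmul_iff_nsmul.1 hd
  have hopen : IsOpen {x : Real.Angle | ε < Real.Angle.cos (x + (φ : Real.Angle))} := by
    apply isOpen_lt continuous_const
    exact Real.Angle.continuous_cos.comp (continuous_id.add continuous_const)
  have hne : ({x : Real.Angle | ε < Real.Angle.cos (x + (φ : Real.Angle))}).Nonempty := by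
    refine ⟨-(φ : Real.Angle), ?_⟩
    simp [hε]
  obtain ⟨n, hn⟩ := hd'.exists_mem_open hopen hne
  refine ⟨n, ?_⟩
  have h2 : ε < Real.Angle.cos (n • (α : Real.Angle) + (φ : Real.Angle)) := hn
  rw [← Real.Angle.coe_nsmul, ← Real.Angle.coe_add, Real.Angle.cos_coe] at h2
  simpa using h2

/-- A rotation recurrence with irrational angle whose invariant circle sticks out of `[-1,1]`
takes a value outside `[-1,1]`. -/
lemma exists_large {α : ℝ} (hα : Irrational (α / (2 * π))) (b d : ℝ)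
    (h : sin α ^ 2 < b ^ 2 + d ^ 2 - 2 * b * d * cos α) (f : ℕ → ℝ) (h0 : f 0 = b)
    (h1 : f 1 = 2 * cos α * b - d)
    (hrec : ∀ n, f (n + 2) = 2 * cos α * f (n + 1) - f n) : ∃ n, 1 < |f n| := by
  have hs : sin α ≠ 0 := by
    intro hs
    obtain ⟨k, hk⟩ := sin_eq_zero_iff.1 hs
    apply hα
    refine ⟨(k : ℚ) / 2, ?_⟩
    rw [← hk]
    push_cast
    field_simp
  obtain ⟨s, hsdef⟩ : ∃ s, s = (d - b * cos α) / sin α := ⟨_, rfl⟩
  have hss : s * sin α = d - b * cos α := by rw [hsdef]; field_simp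
  have hf : ∀ n : ℕ, f n = b * cos (n * α) - s * sin (n * α) := by
    apply closed_form α b s f h0 _ hrec
    rw [h1, hss]; ring
  -- radius
  have hr : 1 < b ^ 2 + s ^ 2 := by
    have hpos : 0 < sin α ^ 2 := by positivity
    have : sin α ^ 2 * (b ^ 2 + s ^ 2) = b ^ 2 + d ^ 2 - 2 * b * d * cos α := by
      have h3 : sin α ^ 2 * (b ^ 2 + s ^ 2) = b ^ 2 * sin α ^ 2 + (s * sin α) ^ 2 := by ring
      rw [h3, hss]
      have : sin α ^ 2 = 1 - cos α ^ 2 := by linarith [sin_sq_add_cos_sq α]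
      rw [this]; ring
    rw [← this] at h
    by_contra hcon
    push Not at hcon
    nlinarith
  -- polar form
  obtain ⟨ρ, hρ⟩ : ∃ ρ, ρ = ‖(⟨b, s⟩ : ℂ)‖ := ⟨_, rfl⟩
  have hρ2 : ρ ^ 2 = b ^ 2 + s ^ 2 := by
    rw [hρ, ← Complex.normSq_eq_norm_sq, Complex.normSq_mk]; ring
  have hρ0 : 0 ≤ ρ := by rw [hρ]; exact norm_nonneg _
  have hρ1 : 1 < ρ := by nlinarith
  obtain ⟨φ, hφ⟩ : ∃ φ, φ = Complex.arg (⟨b, s⟩ : ℂ) := ⟨_, rfl⟩
  have hb : b = ρ * cos φ := by
    have := Complex.norm_mul_cos_arg (⟨b, s⟩ : ℂ)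
    rw [← hρ, ← hφ] at this
    exact this.symm
  have hs' : s = ρ * sin φ := by
    have := Complex.norm_mul_sin_arg (⟨b, s⟩ : ℂ)
    rw [← hρ, ← hφ] at this
    exact this.symm
  obtain ⟨n, hn⟩ := exists_nat_cos_gt hα φ (ε := 1 / ρ) (by rw [div_lt_one (by linarith)]; exact hρ1)
  refine ⟨n, ?_⟩
  have : f n = ρ * cos (n * α + φ) := by
    rw [hf, cos_add]
    nth_rewrite 1 [hb]
    nth_rewrite 1 [hs']
    ring
  rw [this]
  have h5 : 1 < ρ * cos (n * α + φ) := by
    rw [div_lt_iff₀ (by linarith)] at hn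
    linarith
  exact lt_of_lt_of_le h5 (le_abs_self _)

/-- rational version: `X = 2 cos α`. -/
theorem exists_large_rat (a b d : ℚ) (ha0 : a ≠ 0) (ha1 : |a| < 1) (ha2 : |a| ≠ 1 / 2)
    (h : 1 < a ^ 2 + b ^ 2 + d ^ 2 + 2 * a * b * d) (f : ℕ → ℚ) (h0 : f 0 = b)
    (h1 : f 1 = - 2 * a * b - d)
    (hrec : ∀ n, f (n + 2) = - 2 * a * f (n + 1) - f n) : ∃ n, 1 < |f n| := by
  have ha1' : |(a : ℝ)| < 1 := by exact_mod_cast ha1
  obtain ⟨hl, hu⟩ := abs_lt.1 ha1'
  obtain ⟨α, hα⟩ : ∃ α, α = arccos (-(a : ℝ)) := ⟨_, rfl⟩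
  have hcos : cos α = -(a : ℝ) := by
    rw [hα]; exact cos_arccos (by linarith) (by linarith)
  have hirr : Irrational (α / (2 * π)) := by
    rintro ⟨q, hq⟩
    have hθ : ∃ r : ℚ, α = r * π := ⟨2 * q, by
      push_cast
      rw [hq]; field_simp⟩
    have hc : ∃ q : ℚ, cos α = q := ⟨-a, by rw [hcos]; push_cast; rfl⟩
    have hn := niven hθ hc
    rw [hcos] at hn
    simp only [Set.mem_insert_iff, Set.mem_singleton_iff] at hn
    have key : ∀ v : ℚ, -(a : ℝ) = (v : ℝ) → a = -v := by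
      intro v hv
      have : ((-a : ℚ) : ℝ) = (v : ℝ) := by push_cast; exact hv
      have h3 : -a = v := by exact_mod_cast this
      linarith
    rcases hn with hn | hn | hn | hn | hn
    · have := key (-1) (by rw [hn]; norm_num)
      rw [this] at ha1; norm_num at ha1
    · have := key (-1/2) (by rw [hn]; norm_num)
      rw [this] at ha2; norm_num at ha2
    · have := key 0 (by rw [hn]; norm_num)
      apply ha0; rw [this]; norm_num
    · have := key (1/2) (by rw [hn]; norm_num)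
      rw [this] at ha2
      apply ha2; rw [abs_neg, abs_of_pos (by norm_num)]
    · have := key 1 (by rw [hn]; norm_num)
      rw [this] at ha1; norm_num at ha1
  have hreal : sin α ^ 2 < (b : ℝ) ^ 2 + (d : ℝ) ^ 2 - 2 * b * d * cos α := by
    have h2 : sin α ^ 2 = 1 - cos α ^ 2 := by linarith [sin_sq_add_cos_sq α]
    rw [h2, hcos]
    have h' : (1 : ℝ) < (a : ℝ) ^ 2 + (b : ℝ) ^ 2 + (d : ℝ) ^ 2 + 2 * a * b * d := by
      exact_mod_cast h
    nlinarith
  obtain ⟨n, hn⟩ := exists_large hirr b d hreal (fun n => (f n : ℝ)) (by simp [h0])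
    (by simp only [h1, hcos]; push_cast; ring)
    (fun n => by simp only [hrec, hcos]; push_cast; ring)
  exact ⟨n, by exact_mod_cast hn⟩

end Pool.Agent.H575.Rotation
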