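import Mathlib
import Pool.Agent.H575.Rotation

set_option autoImplicit false

namespace Pool.Agent.H575.FourCubes

/-- elements of `3 ℤ[1/c]` -/
def L (c : ℤ) (q : ℚ) : Prop := ∃ (i : ℕ) (n : ℤ), q * (c : ℚ) ^ i = 3 * n

/-- elements of `4 c ^ J ℤ` -/
def Near (c : ℤ) (J : ℕ) (q : ℚ) : Prop := ∃ n : ℤ, q = 4 * (c : ℚ) ^ J * n

/-- Vieta rotation -/
def F (c : ℤ) (v : ℚ × ℚ × ℚ) : ℚ × ℚ × ℚ := (v.1, -2 * v.1 * v.2.1 / c - v.2.2, v.2.1)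

/-- inverse Vieta rotation -/
def G (c : ℤ) (v : ℚ × ℚ × ℚ) : ℚ × ℚ × ℚ := (v.1, v.2.2, -2 * v.1 * v.2.2 / c - v.2.1)

/-- the cubic form on the slice `x + y + z + w = c` -/
def Phi (c : ℤ) (v : ℚ × ℚ × ℚ) : ℚ :=
  c * (v.1 ^ 2 + v.2.1 ^ 2 + v.2.2 ^ 2) + 2 * v.1 * v.2.1 * v.2.2

lemma G_F (c : ℤ) (v : ℚ × ℚ × ℚ) : G c (F c v) = v := by
  simp [G, F]

lemma Phi_F {c : ℤ} (hc : c ≠ 0) (v : ℚ × ℚ × ℚ) : Phi c (F c v) = Phi c v := by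
  have hc' : (c : ℚ) ≠ 0 := by exact_mod_cast hc
  simp only [Phi, F]
  field_simp
  ring

lemma Phi_G {c : ℤ} (hc : c ≠ 0) (v : ℚ × ℚ × ℚ) : Phi c (G c v) = Phi c v := by
  have hc' : (c : ℚ) ≠ 0 := by exact_mod_cast hc
  simp only [Phi, G]
  field_simp
  ring

lemma Phi_F_iter {c : ℤ} (hc : c ≠ 0) (n : ℕ) (v : ℚ × ℚ × ℚ) :
    Phi c ((F c)^[n] v) = Phi c v := by
  induction n with
  | zero => rfl
  | succ n ih => rw [Function.iterate_succ_apply', Phi_F hc, ih]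

lemma Phi_G_iter {c : ℤ} (hc : c ≠ 0) (n : ℕ) (v : ℚ × ℚ × ℚ) :
    Phi c ((G c)^[n] v) = Phi c v := by
  induction n with
  | zero => rfl
  | succ n ih => rw [Function.iterate_succ_apply', Phi_G hc, ih]

lemma fst_F_iter (c : ℤ) (n : ℕ) (v : ℚ × ℚ × ℚ) : ((F c)^[n] v).1 = v.1 := by
  induction n with
  | zero => rfl
  | succ n ih => rw [Function.iterate_succ_apply']; simpa [F] using ih

lemma fst_G_iter (c : ℤ) (n : ℕ) (v : ℚ × ℚ × ℚ) : ((G c)^[n] v).1 = v.1 := by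
  induction n with
  | zero => rfl
  | succ n ih => rw [Function.iterate_succ_apply']; simpa [G] using ih

lemma G_F_iter (c : ℤ) (n : ℕ) (v : ℚ × ℚ × ℚ) : (G c)^[n] ((F c)^[n] v) = v :=
  (Function.LeftInverse.iterate (G_F c) n) v

lemma L_int {c : ℤ} {n : ℤ} (h : (3 : ℤ) ∣ n) : L c (n : ℚ) := by
  obtain ⟨k, rfl⟩ := h
  exact ⟨0, k, by push_cast; ring⟩

lemma L_sub {c : ℤ} {p q : ℚ} (hp : L c p) (hq : L c q) : L c (p - q) := by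
  obtain ⟨i, a, ha⟩ := hp
  obtain ⟨j, b, hb⟩ := hq
  refine ⟨i + j, a * c ^ j - b * c ^ i, ?_⟩
  push_cast
  rw [sub_mul, pow_add]
  linear_combination (c : ℚ) ^ j * ha - (c : ℚ) ^ i * hb

lemma L_mul_div {c : ℤ} (hc : c ≠ 0) {p q : ℚ} (hp : L c p) (hq : L c q) :
    L c (-2 * p * q / c) := by
  have hc' : (c : ℚ) ≠ 0 := by exact_mod_cast hc
  obtain ⟨i, a, ha⟩ := hp
  obtain ⟨j, b, hb⟩ := hq
  refine ⟨i + j + 1, -6 * a * b, ?_⟩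
  have : -2 * p * q / c * (c : ℚ) ^ (i + j + 1) = -2 * (p * (c : ℚ) ^ i) * (q * (c : ℚ) ^ j) := by
    rw [pow_add, pow_add]
    field_simp
  rw [this, ha, hb]
  push_cast
  ring

lemma L_F {c : ℤ} (hc : c ≠ 0) {v : ℚ × ℚ × ℚ} (h1 : L c v.1) (h2 : L c v.2.1) (h3 : L c v.2.2) :
    L c (F c v).1 ∧ L c (F c v).2.1 ∧ L c (F c v).2.2 :=
  ⟨h1, L_sub (L_mul_div hc h1 h2) h3, h2⟩

lemma L_G {c : ℤ} (hc : c ≠ 0) {v : ℚ × ℚ × ℚ} (h1 : L c v.1) (h2 : L c v.2.1) (h3 : L c v.2.2) :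
    L c (G c v).1 ∧ L c (G c v).2.1 ∧ L c (G c v).2.2 :=
  ⟨h1, h3, L_sub (L_mul_div hc h1 h3) h2⟩

lemma L_F_iter {c : ℤ} (hc : c ≠ 0) (n : ℕ) {v : ℚ × ℚ × ℚ} (h1 : L c v.1) (h2 : L c v.2.1)
    (h3 : L c v.2.2) :
    L c ((F c)^[n] v).1 ∧ L c ((F c)^[n] v).2.1 ∧ L c ((F c)^[n] v).2.2 := by
  induction n with
  | zero => exact ⟨h1, h2, h3⟩
  | succ n ih =>
    rw [Function.iterate_succ_apply']
    exact L_F hc ih.1 ih.2.1 ih.2.2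

/-- continuity of the iterates of the inverse rotation at a point of `(3 ℤ[1/c])³` -/
lemma G_iter_near {c : ℤ} (hc : c ≠ 0) (n : ℕ) :
    ∀ v : ℚ × ℚ × ℚ, L c v.1 → L c v.2.1 → L c v.2.2 → ∃ J : ℕ, ∀ v' : ℚ × ℚ × ℚ,
      Near c J (v'.1 - v.1) → Near c J (v'.2.1 - v.2.1) → Near c J (v'.2.2 - v.2.2) →
      Near c 0 (((G c)^[n] v').1 - ((G c)^[n] v).1) ∧
      Near c 0 (((G c)^[n] v').2.1 - ((G c)^[n] v).2.1) ∧
      Near c 0 (((G c)^[n] v').2.2 - ((G c)^[n] v).2.2) := by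
  have hc' : (c : ℚ) ≠ 0 := by exact_mod_cast hc
  induction n with
  | zero => exact fun v _ _ _ => ⟨0, fun v' h1 h2 h3 => ⟨h1, h2, h3⟩⟩
  | succ n ih =>
    intro v h1 h2 h3
    obtain ⟨g1, g2, g3⟩ := L_G hc h1 h2 h3
    obtain ⟨J1, hJ1⟩ := ih (G c v) g1 g2 g3
    obtain ⟨i, a, ha⟩ := h1
    obtain ⟨j, b, hb⟩ := h3
    refine ⟨J1 + 1 + i + j, fun v' k1 k2 k3 => ?_⟩
    rw [Function.iterate_succ_apply, Function.iterate_succ_apply]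
    obtain ⟨m1, hm1⟩ := k1
    obtain ⟨m2, hm2⟩ := k2
    obtain ⟨m3, hm3⟩ := k3
    refine hJ1 (G c v') ?_ ?_ ?_
    · refine ⟨c ^ (1 + i + j) * m1, ?_⟩
      simp only [G]
      rw [hm1]; push_cast; ring
    · refine ⟨c ^ (1 + i + j) * m3, ?_⟩
      simp only [G]
      rw [hm3]; push_cast; ring
    · refine ⟨-2 * (3 * a * c ^ j * m3 + 3 * b * c ^ i * m1 + 4 * c ^ (J1 + 1 + i + j + i + j) * m1 * m3)
        - c ^ (1 + i + j) * m2, ?_⟩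
      simp only [G]
      have e1 : v'.1 = v.1 + 4 * (c : ℚ) ^ (J1 + 1 + i + j) * m1 := by linarith
      have e2 : v'.2.1 = v.2.1 + 4 * (c : ℚ) ^ (J1 + 1 + i + j) * m2 := by linarith
      have e3 : v'.2.2 = v.2.2 + 4 * (c : ℚ) ^ (J1 + 1 + i + j) * m3 := by linarith
      rw [e1, e2, e3]
      have key : (v.1 + 4 * (c : ℚ) ^ (J1 + 1 + i + j) * m1) * (v.2.2 + 4 * (c : ℚ) ^ (J1 + 1 + i + j) * m3)
          = v.1 * v.2.2 + 4 * (c : ℚ) ^ (J1 + 1) * ((v.1 * (c : ℚ) ^ i) * (c : ℚ) ^ j * m3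
            + (v.2.2 * (c : ℚ) ^ j) * (c : ℚ) ^ i * m1
            + 4 * (c : ℚ) ^ (J1 + 1 + i + j + i + j) * m1 * m3) := by
        ring
      rw [ha, hb] at key
      have e4 : ∀ p q : ℚ, -2 * p * q / c = -2 * (p * q) / c := by intro p q; ring
      rw [e4, e4, key]
      push_cast
      field_simp
      ring

/-- automorph of the fibre conic -/
lemma Phi_pell {c : ℤ} {b E t u : ℚ} {v : ℚ × ℚ × ℚ} (hb : v.2.1 * E = b * c)
    (hE : E ≠ 0) (hp : t ^ 2 - (b ^ 2 - E ^ 2) * u ^ 2 = 1) :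
    Phi c ((t - b * u) * v.1 - E * u * v.2.2, v.2.1, E * u * v.1 + (t + b * u) * v.2.2) = Phi c v := by
  obtain ⟨A, B, D⟩ := v
  simp only [Phi] at *
  have hB : B = b * c / E := by field_simp; linarith
  subst hB
  have : (c : ℚ) * (((t - b * u) * A - E * u * D) ^ 2 + (b * c / E) ^ 2 + (E * u * A + (t + b * u) * D) ^ 2)
      + 2 * ((t - b * u) * A - E * u * D) * (b * c / E) * (E * u * A + (t + b * u) * D)
      - (c * (A ^ 2 + (b * c / E) ^ 2 + D ^ 2) + 2 * A * (b * c / E) * D)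
      = (c / E) * (E * A ^ 2 + 2 * b * A * D + E * D ^ 2) * (t ^ 2 - (b ^ 2 - E ^ 2) * u ^ 2 - 1) := by
    field_simp
    ring
  rw [hp] at this
  linarith

/-- a negative or `2 mod 3` number is not a square -/
lemma not_isSquare_mod3 {n : ℤ} (h : n % 3 = 2) : ¬ IsSquare n := by
  rintro ⟨s, rfl⟩
  have : s % 3 = 0 ∨ s % 3 = 1 ∨ s % 3 = 2 := by omega
  rcases this with h1 | h1 | h1 <;> simp [Int.mul_emod, h1] at h

/-- from integral shifts of `(A, B, D)` back to four cubes -/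
lemma back {x y z w c : ℤ} {v' : ℚ × ℚ × ℚ} (hc : x + y + z + w = c)
    (h1 : Near c 0 (v'.1 - ((x + y - z - w : ℤ) : ℚ)))
    (h2 : Near c 0 (v'.2.1 - ((x + z - y - w : ℤ) : ℚ)))
    (h3 : Near c 0 (v'.2.2 - ((x + w - y - z : ℤ) : ℚ)))
    (hΦ : Phi c v' = Phi c (((x + y - z - w : ℤ) : ℚ), ((x + z - y - w : ℤ) : ℚ), ((x + w - y - z : ℤ) : ℚ))) :
    ∃ x' y' z' w' : ℤ, x' ^ 3 + y' ^ 3 + z' ^ 3 + w' ^ 3 = x ^ 3 + y ^ 3 + z ^ 3 + w ^ 3 ∧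
      x' + y' + z' + w' = c ∧ ((x' + y' - z' - w' : ℤ) : ℚ) = v'.1 ∧
      ((x' + z' - y' - w' : ℤ) : ℚ) = v'.2.1 ∧ ((x' + w' - y' - z' : ℤ) : ℚ) = v'.2.2 := by
  obtain ⟨m1, hm1⟩ := h1
  obtain ⟨m2, hm2⟩ := h2
  obtain ⟨m3, hm3⟩ := h3
  have e1 : v'.1 = ((x + y - z - w + 4 * m1 : ℤ) : ℚ) := by push_cast at hm1 ⊢; linarith
  have e2 : v'.2.1 = ((x + z - y - w + 4 * m2 : ℤ) : ℚ) := by push_cast at hm2 ⊢; linarith
  have e3 : v'.2.2 = ((x + w - y - z + 4 * m3 : ℤ) : ℚ) := by push_cast at hm3 ⊢; linarith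
  refine ⟨x + m1 + m2 + m3, y + m1 - m2 - m3, z - m1 + m2 - m3, w - m1 - m2 + m3, ?_, ?_, ?_, ?_, ?_⟩
  · simp only [Phi, e1, e2, e3] at hΦ
    have hΦ' : c * ((x + y - z - w + 4 * m1) ^ 2 + (x + z - y - w + 4 * m2) ^ 2
        + (x + w - y - z + 4 * m3) ^ 2) + 2 * (x + y - z - w + 4 * m1) * (x + z - y - w + 4 * m2)
        * (x + w - y - z + 4 * m3) = c * ((x + y - z - w) ^ 2 + (x + z - y - w) ^ 2
        + (x + w - y - z) ^ 2) + 2 * (x + y - z - w) * (x + z - y - w)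
        * (x + w - y - z) := by exact_mod_cast hΦ
    subst hc
    have h16 : 16 * ((x + m1 + m2 + m3) ^ 3 + (y + m1 - m2 - m3) ^ 3 + (z - m1 + m2 - m3) ^ 3
        + (w - m1 - m2 + m3) ^ 3) = 16 * (x ^ 3 + y ^ 3 + z ^ 3 + w ^ 3) := by
      linear_combination 3 * hΦ'
    linarith
  · linarith
  · rw [e1]; congr 1; ring
  · rw [e2]; congr 1; ring
  · rw [e3]; congr 1; ring

/-- the second coordinate along the orbit satisfies the rotation recurrence -/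
lemma F_rec (c : ℤ) (v : ℚ × ℚ × ℚ) (n : ℕ) :
    ((F c)^[n + 2] v).2.1 = -2 * v.1 * ((F c)^[n + 1] v).2.1 / c - ((F c)^[n] v).2.1 := by
  have h1 : (F c)^[n + 2] v = F c ((F c)^[n + 1] v) := Function.iterate_succ_apply' _ _ _
  have h2 : (F c)^[n + 1] v = F c ((F c)^[n] v) := Function.iterate_succ_apply' _ _ _
  rw [h1]
  have h3 : ((F c)^[n + 1] v).2.2 = ((F c)^[n] v).2.1 := by rw [h2]; rfl
  have h4 : ((F c)^[n + 1] v).1 = v.1 := fst_F_iter c _ v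
  show -2 * ((F c)^[n + 1] v).1 * ((F c)^[n + 1] v).2.1 / c - ((F c)^[n + 1] v).2.2 = _
  rw [h3, h4]

/-- The core: unbounded first difference on the slice. -/
theorem core {x y z w c : ℤ} (hc : x + y + z + w = c) (hc3 : ¬ (3 : ℤ) ∣ c)
    (hA : (3 : ℤ) ∣ x + y - z - w) (hB : (3 : ℤ) ∣ x + z - y - w) (hD : (3 : ℤ) ∣ x + w - y - z)
    (hA0 : x + y - z - w ≠ 0) (hAc : |x + y - z - w| < |c|)
    (hK : 1 < (((x + y - z - w : ℤ) : ℚ) / c) ^ 2 + (((x + z - y - w : ℤ) : ℚ) / c) ^ 2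
      + (((x + w - y - z : ℤ) : ℚ) / c) ^ 2
      + 2 * (((x + y - z - w : ℤ) : ℚ) / c) * (((x + z - y - w : ℤ) : ℚ) / c)
        * (((x + w - y - z : ℤ) : ℚ) / c)) (M : ℤ) :
    ∃ x' y' z' w' : ℤ, x' ^ 3 + y' ^ 3 + z' ^ 3 + w' ^ 3 = x ^ 3 + y ^ 3 + z ^ 3 + w ^ 3 ∧
      x' + y' + z' + w' = c ∧ M < |x' + y' - z' - w'| ∧
      ¬ (x' + z' - y' - w' = 0 ∧ x' + w' - y' - z' = 0) := by
  have hc0 : c ≠ 0 := by rintro rfl; exact hc3 (dvd_zero 3)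
  have hc' : (c : ℚ) ≠ 0 := by exact_mod_cast hc0
  obtain ⟨A, hAdef⟩ : ∃ A, A = x + y - z - w := ⟨_, rfl⟩
  obtain ⟨B, hBdef⟩ : ∃ B, B = x + z - y - w := ⟨_, rfl⟩
  obtain ⟨D, hDdef⟩ : ∃ D, D = x + w - y - z := ⟨_, rfl⟩
  rw [← hAdef] at hA hA0 hAc
  rw [← hBdef] at hB
  rw [← hDdef] at hD
  rw [← hAdef, ← hBdef, ← hDdef] at hK
  obtain ⟨v, hv⟩ : ∃ v : ℚ × ℚ × ℚ, v = ((A : ℚ), (B : ℚ), (D : ℚ)) := ⟨_, rfl⟩
  -- step 1: rotate out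
  obtain ⟨n, hn⟩ : ∃ n : ℕ, 1 < |((F c)^[n] v).2.1 / c| := by
    refine Pool.Agent.H575.Rotation.exists_large_rat (A / c) (B / c) (D / c) ?_ ?_ ?_ hK
      (fun n => ((F c)^[n] v).2.1 / c) ?_ ?_ ?_
    · exact div_ne_zero (by exact_mod_cast hA0) hc'
    · rw [abs_div, div_lt_one (by positivity)]
      exact_mod_cast hAc
    · intro h2
      rw [abs_div, div_eq_div_iff (by positivity) (by norm_num)] at h2
      have h3 : |A| * 2 = 1 * |c| := by exact_mod_cast h2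
      apply hc3
      rw [← dvd_abs]
      rw [← dvd_abs] at hA
      omega
    · simp [hv]
    · simp only [Function.iterate_one, F, hv]
      ring
    · intro n
      simp only [F_rec]
      rw [hv]
      ring
  obtain ⟨Q, hQ⟩ : ∃ Q, Q = (F c)^[n] v := ⟨_, rfl⟩
  rw [← hQ] at hn
  obtain ⟨-, l2, l3⟩ : L c Q.1 ∧ L c Q.2.1 ∧ L c Q.2.2 := by
    rw [hQ]
    apply L_F_iter hc0
    · rw [hv]; exact L_int hA
    · rw [hv]; exact L_int hB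
    · rw [hv]; exact L_int hD
  have hQ1 : Q.1 = A := by rw [hQ, fst_F_iter, hv]
  have hGQ : (G c)^[n] Q = v := by rw [hQ, G_F_iter]
  -- common denominators
  obtain ⟨i, β, δ, hβ, hδ⟩ : ∃ (i : ℕ) (β δ : ℤ), Q.2.1 * (c : ℚ) ^ i = 3 * β ∧
      Q.2.2 * (c : ℚ) ^ i = 3 * δ := by
    obtain ⟨i, a, ha⟩ := l2
    obtain ⟨j, b, hb⟩ := l3
    refine ⟨i + j, a * c ^ j, b * c ^ i, ?_, ?_⟩
    · rw [pow_add]; push_cast; linear_combination (c : ℚ) ^ j * ha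
    · rw [pow_add]; push_cast; linear_combination (c : ℚ) ^ i * hb
  obtain ⟨J, hJ⟩ := G_iter_near hc0 n Q (by rw [hQ1]; exact L_int hA) l2 l3
  -- Pell data
  obtain ⟨E, hE⟩ : ∃ E : ℤ, E = c ^ (i + 1) := ⟨_, rfl⟩
  have hE0 : E ≠ 0 := by rw [hE]; exact pow_ne_zero _ hc0
  obtain ⟨Δ, hΔ⟩ : ∃ Δ : ℤ, Δ = (3 * β) ^ 2 - E ^ 2 := ⟨_, rfl⟩
  have hE3 : E ^ 2 % 3 = 1 := by
    have h3 : ¬ (3 : ℤ) ∣ E := by
      rw [hE]; intro h
      exact hc3 (Int.prime_three.dvd_of_dvd_pow h)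
    have : E % 3 = 1 ∨ E % 3 = 2 := by omega
    rcases this with h | h <;> simp [pow_two, Int.mul_emod, h]
  have hΔ3 : Δ % 3 = 2 := by
    have : Δ = 3 * (3 * β ^ 2) - E ^ 2 := by rw [hΔ]; ring
    omega
  have hΔns : ¬ IsSquare Δ := not_isSquare_mod3 hΔ3
  have hΔpos : 0 < Δ := by
    have h1 : 1 < (Q.2.1 / c) ^ 2 := by
      rw [← sq_abs]; nlinarith
    have h2 : (Q.2.1 / c) ^ 2 * (E : ℚ) ^ 2 = (3 * β : ℚ) ^ 2 := by
      rw [hE, ← hβ]; push_cast; field_simp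
      try ring
    have h3 : (0 : ℚ) < (E : ℚ) ^ 2 := by positivity
    have h4 : (E : ℚ) ^ 2 < (3 * β : ℚ) ^ 2 := by rw [← h2]; nlinarith
    have h5 : E ^ 2 < (3 * β) ^ 2 := by exact_mod_cast h4
    rw [hΔ]; linarith
  obtain ⟨N, hN⟩ : ∃ N : ℤ, N = 4 * c ^ (J + i) := ⟨_, rfl⟩
  have hN0 : N ≠ 0 := by rw [hN]; exact mul_ne_zero (by norm_num) (pow_ne_zero _ hc0)
  obtain ⟨m, hm⟩ : ∃ m : ℤ, m = |M| + 1 := ⟨_, rfl⟩
  have hm0 : 0 < m := by rw [hm]; positivity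
  have hns : ¬ IsSquare (Δ * (N * m) ^ 2) := by
    rintro ⟨s, hs⟩
    have hNm : N * m ≠ 0 := mul_ne_zero hN0 hm0.ne'
    have hd : (N * m) ^ 2 ∣ s ^ 2 := ⟨Δ, by rw [pow_two s, ← hs]; ring⟩
    obtain ⟨j, rfl⟩ := (Int.pow_dvd_pow_iff (two_ne_zero)).1 hd
    apply hΔns
    refine ⟨j, ?_⟩
    apply mul_right_cancel₀ (pow_ne_zero 2 hNm)
    rw [hs]; ring
  have hpos : 0 < Δ * (N * m) ^ 2 := by
    have : N * m ≠ 0 := mul_ne_zero hN0 hm0.ne'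
    positivity
  obtain ⟨X, Y, hXY, hY0⟩ := Pell.exists_of_not_isSquare hpos hns
  obtain ⟨t, ht⟩ : ∃ t : ℤ, t = 2 * X ^ 2 - 1 := ⟨_, rfl⟩
  have ht' : t - 1 = N * (2 * Δ * N * m ^ 2 * Y ^ 2) := by
    rw [ht]; linear_combination 2 * hXY
  have htbig : M < |t| := by
    have h1 : t = 1 + 2 * (Δ * (N * m) ^ 2 * Y ^ 2) := by rw [ht]; linear_combination 2 * hXY
    have h2 : 1 ≤ Δ := hΔpos
    have h3 : 1 ≤ N ^ 2 := by have : 0 < N ^ 2 := by positivity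
                              linarith
    have h4 : 1 ≤ Y ^ 2 := by have : 0 < Y ^ 2 := by positivity
                              linarith
    have h5 : m ^ 2 ≤ Δ * (N * m) ^ 2 * Y ^ 2 := by
      have : Δ * (N * m) ^ 2 * Y ^ 2 = m ^ 2 * (Δ * N ^ 2 * Y ^ 2) := by ring
      rw [this]
      have h6 : 1 ≤ Δ * N ^ 2 * Y ^ 2 := by
        have : 0 < Δ * N ^ 2 * Y ^ 2 := by positivity
        linarith
      nlinarith [sq_nonneg m]
    have h6 : m ≤ m ^ 2 := by nlinarith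
    have h7 : M ≤ |M| := le_abs_self M
    have h8 : t ≤ |t| := le_abs_self t
    linarith [sq_nonneg m]
  -- the construction for a given sign
  have main : ∀ u : ℤ, (∃ u' : ℤ, u = N * u') → t ^ 2 - Δ * u ^ 2 = 1 →
      ∃ x' y' z' w' : ℤ, x' ^ 3 + y' ^ 3 + z' ^ 3 + w' ^ 3 = x ^ 3 + y ^ 3 + z ^ 3 + w ^ 3 ∧
      x' + y' + z' + w' = c ∧
      ((x' + y' - z' - w' : ℤ) : ℚ) = (t - 3 * β * u) * A - E * u * Q.2.2 ∧
      ¬ (x' + z' - y' - w' = 0 ∧ x' + w' - y' - z' = 0) := by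
    rintro u ⟨u', hu'⟩ hp
    obtain ⟨Q', hQ'⟩ : ∃ Q' : ℚ × ℚ × ℚ, Q' = (((t : ℚ) - (3 * β : ℚ) * u) * Q.1 - E * u * Q.2.2, Q.2.1,
      E * u * Q.1 + ((t : ℚ) + (3 * β : ℚ) * u) * Q.2.2) := ⟨_, rfl⟩
    have hΦ : Phi c Q' = Phi c Q := by
      rw [hQ']
      apply Phi_pell (b := (3 * β : ℚ)) (E := (E : ℚ))
      · rw [hE, ← hβ]; push_cast; ring
      · exact_mod_cast hE0
      · have : ((t ^ 2 - Δ * u ^ 2 : ℤ) : ℚ) = 1 := by exact_mod_cast hp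
        rw [hΔ] at this
        push_cast at this
        linarith
    have n1 : Near c J (Q'.1 - Q.1) := by
      refine ⟨c ^ i * ((2 * Δ * N * m ^ 2 * Y ^ 2) * A - u' * (3 * β * A + 3 * c * δ)), ?_⟩
      rw [hQ']
      simp only
      rw [hQ1]
      have e1 : ((t : ℤ) : ℚ) = 1 + N * (2 * Δ * N * m ^ 2 * Y ^ 2) := by
        have : t = 1 + N * (2 * Δ * N * m ^ 2 * Y ^ 2) := by linarith
        rw [this]; push_cast; ring
      have e2 : ((u : ℤ) : ℚ) = N * u' := by rw [hu']; push_cast; ring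
      have e3 : (E : ℚ) * Q.2.2 = 3 * c * δ := by
        rw [hE]; push_cast; rw [pow_succ]; linear_combination (c : ℚ) * hδ
      have e4 : (N : ℚ) = 4 * (c : ℚ) ^ J * (c : ℚ) ^ i := by rw [hN]; push_cast; ring
      have : ((t : ℚ) - (3 * β : ℚ) * u) * A - E * u * Q.2.2 - A
          = ((t : ℚ) - 1) * A - u * (3 * β * A + E * Q.2.2) := by ring
      rw [this, e3, e1, e2, e4]
      push_cast
      rw [e4]
      ring
    have n2 : Near c J (Q'.2.1 - Q.2.1) := ⟨0, by rw [hQ']; simp⟩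
    have n3 : Near c J (Q'.2.2 - Q.2.2) := by
      refine ⟨c ^ i * (E * u' * A) + 3 * δ * (2 * Δ * N * m ^ 2 * Y ^ 2 + 3 * β * u'), ?_⟩
      rw [hQ']
      simp only
      rw [hQ1]
      have e1 : ((t : ℤ) : ℚ) = 1 + N * (2 * Δ * N * m ^ 2 * Y ^ 2) := by
        have : t = 1 + N * (2 * Δ * N * m ^ 2 * Y ^ 2) := by linarith
        rw [this]; push_cast; ring
      have e2 : ((u : ℤ) : ℚ) = N * u' := by rw [hu']; push_cast; ring
      have e4 : (N : ℚ) = 4 * (c : ℚ) ^ J * (c : ℚ) ^ i := by rw [hN]; push_cast; ring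
      have : (E : ℚ) * u * A + ((t : ℚ) + (3 * β : ℚ) * u) * Q.2.2 - Q.2.2
          = (E : ℚ) * (N * u') * A + (N : ℚ) * (2 * Δ * N * m ^ 2 * Y ^ 2 + 3 * β * u') * Q.2.2 := by
        rw [e1, e2]; ring
      rw [this]
      have e5 : (N : ℚ) * Q.2.2 = 4 * (c : ℚ) ^ J * (3 * δ) := by
        rw [e4, ← hδ]; ring
      push_cast
      have e6 : (N : ℚ) * (2 * Δ * N * m ^ 2 * Y ^ 2 + 3 * β * u') * Q.2.2
          = (2 * Δ * N * m ^ 2 * Y ^ 2 + 3 * β * u') * ((N : ℚ) * Q.2.2) := by ring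
      rw [e6, e5]
      have e7 : (E : ℚ) * (N * u') * A = 4 * (c : ℚ) ^ J * ((c : ℚ) ^ i * (E * u' * A)) := by
        rw [e4]; ring
      rw [e7]
      ring
    obtain ⟨g1, g2, g3⟩ := hJ Q' n1 n2 n3
    rw [hGQ] at g1 g2 g3
    have hΦ2 : Phi c ((G c)^[n] Q') = Phi c v := by
      rw [Phi_G_iter hc0, hΦ, hQ, Phi_F_iter hc0]
    rw [hv] at g1 g2 g3 hΦ2
    simp only at g1 g2 g3
    rw [hAdef] at g1
    rw [hBdef] at g2
    rw [hDdef] at g3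
    rw [hAdef, hBdef, hDdef] at hΦ2
    obtain ⟨x', y', z', w', b1, b2, b3, b4, b5⟩ := back hc g1 g2 g3 hΦ2
    refine ⟨x', y', z', w', b1, b2, ?_, ?_⟩
    · rw [b3, fst_G_iter, hQ', ← hQ1]
    · rintro ⟨z1, z2⟩
      rw [z1] at b4
      rw [z2] at b5
      -- then the orbit stays at `(A', 0, 0)`, but `Q'.2.1 ≠ 0`
      have hzero : ∀ k : ℕ, ∀ q : ℚ × ℚ × ℚ, ((G c)^[k] q).2.1 = 0 → ((G c)^[k] q).2.2 = 0 →
          q.2.1 = 0 ∧ q.2.2 = 0 := by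
        intro k
        induction k with
        | zero => exact fun q h1 h2 => ⟨h1, h2⟩
        | succ k ih =>
          intro q h1 h2
          rw [Function.iterate_succ_apply] at h1 h2
          obtain ⟨h3, h4⟩ := ih _ h1 h2
          simp only [G] at h3 h4
          rw [h3] at h4
          simp only [mul_zero, zero_div, zero_sub, neg_eq_zero] at h4
          exact ⟨h4, h3⟩
      obtain ⟨h1, -⟩ := hzero n Q' (by rw [← b4]; norm_num) (by rw [← b5]; norm_num)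
      rw [hQ'] at h1
      simp only at h1
      rw [h1] at hn
      norm_num at hn
  obtain ⟨u, hu⟩ : ∃ u : ℤ, u = N * (2 * X * Y * m) := ⟨_, rfl⟩
  have hp : t ^ 2 - Δ * u ^ 2 = 1 := by
    rw [ht, hu]; linear_combination (4 * X ^ 2) * hXY
  obtain ⟨x1, y1, z1, w1, a1, a2, a3, a4⟩ := main u ⟨_, hu⟩ hp
  obtain ⟨x2, y2, z2, w2, c1, c2, c3, c4⟩ := main (-u) ⟨-(2 * X * Y * m), by rw [hu]; ring⟩
    (by rw [← hp]; ring)
  have hsum : (x1 + y1 - z1 - w1) + (x2 + y2 - z2 - w2) = 2 * t * A := by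
    have : (((x1 + y1 - z1 - w1) + (x2 + y2 - z2 - w2) : ℤ) : ℚ) = ((2 * t * A : ℤ) : ℚ) := by
      rw [Int.cast_add, a3, c3]; push_cast; ring
    exact_mod_cast this
  by_cases hcase : M < |x1 + y1 - z1 - w1|
  · exact ⟨x1, y1, z1, w1, a1, a2, hcase, a4⟩
  · refine ⟨x2, y2, z2, w2, c1, c2, ?_, c4⟩
    push Not at hcase
    have h1 : 2 * |t| * |A| ≤ |x1 + y1 - z1 - w1| + |x2 + y2 - z2 - w2| := by
      have := abs_add_le (x1 + y1 - z1 - w1) (x2 + y2 - z2 - w2)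
      rw [hsum, abs_mul, abs_mul] at this
      simpa using this
    have h2 : 1 ≤ |A| := Int.one_le_abs hA0
    have h3 : 0 ≤ |t| := abs_nonneg t
    have h4 : |t| ≤ |t| * |A| := le_mul_of_one_le_right h3 h2
    linarith

end Pool.Agent.H575.FourCubes
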